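import Pool.Agent.Helper59.LUC.Goals

set_option autoImplicit false

namespace Pool.Agent.Helper59.LUC

namespace PkUB

open Real

/-- `log (1 + y) ≤ y - y^2/4` for `-1 < y ≤ 1`. -/
lemma log_le (y : ℝ) (h1 : -1 < y) (h2 : y ≤ 1) : Real.log (1 + y) ≤ y - y ^ 2 / 4 := by
  have hd : ∀ x : ℝ, -1 < x →
      HasDerivAt (fun t : ℝ => t - t ^ 2 / 4 - Real.log (1 + t)) (1 - x / 2 - 1 / (1 + x)) x := by
    intro x hx
    have e1 : HasDerivAt (fun t : ℝ => t) 1 x := hasDerivAt_id x
    have e2 : HasDerivAt (fun t : ℝ => t ^ 2 / 4) ((2 * x) / 4) x := by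
      have := ((hasDerivAt_id x).pow 2).div_const 4
      simpa using this
    have e3 : HasDerivAt (fun t : ℝ => Real.log (1 + t)) (1 / (1 + x)) x := by
      have := ((hasDerivAt_id x).const_add 1).log (by simp; linarith)
      simpa using this
    have e4 := (e1.sub e2).sub e3
    have : (1 - x / 2 - 1 / (1 + x)) = 1 - (2 * x) / 4 - 1 / (1 + x) := by ring
    rw [this]
    exact e4
  have hval : ∀ x : ℝ, -1 < x → 1 - x / 2 - 1 / (1 + x) = x * (1 - x) / (2 * (1 + x)) := by
    intro x hx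
    have : (1 + x) ≠ 0 := by linarith
    field_simp
    ring
  have h0 : (fun t : ℝ => t - t ^ 2 / 4 - Real.log (1 + t)) 0 = 0 := by simp
  suffices hs : (0 : ℝ) ≤ (fun t : ℝ => t - t ^ 2 / 4 - Real.log (1 + t)) y by
    have : (fun t : ℝ => t - t ^ 2 / 4 - Real.log (1 + t)) y = y - y ^ 2 / 4 - Real.log (1 + y) := rfl
    rw [this] at hs
    linarith
  rcases le_total 0 y with hy | hy
  · -- monotone on [0, 1]
    have hm : MonotoneOn (fun t : ℝ => t - t ^ 2 / 4 - Real.log (1 + t)) (Set.Icc 0 y) := by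
      apply monotoneOn_of_deriv_nonneg (convex_Icc 0 y)
      · intro t ht
        exact (hd t (by linarith [ht.1])).continuousAt.continuousWithinAt
      · intro t ht
        rw [interior_Icc] at ht
        exact (hd t (by linarith [ht.1])).differentiableAt.differentiableWithinAt
      · intro t ht
        rw [interior_Icc] at ht
        rw [(hd t (by linarith [ht.1])).deriv, hval t (by linarith [ht.1])]
        apply div_nonneg
        · exact mul_nonneg ht.1.le (by linarith [ht.2])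
        · linarith [ht.1]
    have := hm (Set.left_mem_Icc.mpr hy) (Set.right_mem_Icc.mpr hy) hy
    rw [h0] at this
    exact this
  · have hm : AntitoneOn (fun t : ℝ => t - t ^ 2 / 4 - Real.log (1 + t)) (Set.Icc y 0) := by
      apply antitoneOn_of_deriv_nonpos (convex_Icc y 0)
      · intro t ht
        exact (hd t (by linarith [ht.1])).continuousAt.continuousWithinAt
      · intro t ht
        rw [interior_Icc] at ht
        exact (hd t (by linarith [ht.1])).differentiableAt.differentiableWithinAt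
      · intro t ht
        rw [interior_Icc] at ht
        rw [(hd t (by linarith [ht.1])).deriv, hval t (by linarith [ht.1])]
        apply div_nonpos_of_nonpos_of_nonneg
        · exact mul_nonpos_of_nonpos_of_nonneg ht.2.le (by linarith [ht.2])
        · linarith [ht.1]
    have := hm (Set.left_mem_Icc.mpr hy) (Set.right_mem_Icc.mpr hy) hy
    rw [h0] at this
    exact this

/-- `‖η - z‖ ^ 2 = 2 - 2 c` -/
lemma sq_eq (η z : ℂ) (hη : ‖η‖ = 1) (hz : ‖z‖ = 1) :
    ‖η - z‖ ^ 2 = 2 - 2 * (η * (starRingEnd ℂ) z).re := by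
  have e1 : η.re ^ 2 + η.im ^ 2 = 1 := by
    have := Complex.sq_norm η
    rw [hη, Complex.normSq_apply] at this
    linarith
  have e2 : z.re ^ 2 + z.im ^ 2 = 1 := by
    have := Complex.sq_norm z
    rw [hz, Complex.normSq_apply] at this
    linarith
  rw [Complex.sq_norm, Complex.normSq_apply]
  simp only [Complex.sub_re, Complex.sub_im, Complex.mul_re, Complex.conj_re, Complex.conj_im]
  nlinarith [e1, e2]

lemma re_sq (w : ℂ) (hw : ‖w‖ = 1) : w.re ^ 2 = 1 / 2 + (w ^ 2).re / 2 := by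
  have e1 : w.re ^ 2 + w.im ^ 2 = 1 := by
    have := Complex.sq_norm w
    rw [hw, Complex.normSq_apply] at this
    linarith
  rw [pow_two w, Complex.mul_re]
  nlinarith [e1]

theorem thm : G_UB := by
  intro η hη O R hO h1 h2
  have hcn : ∀ z ∈ O, ‖η * (starRingEnd ℂ) z‖ = 1 := by
    intro z hz
    rw [norm_mul, hη, RCLike.norm_conj, (hO z hz).1, one_mul]
  -- pointwise bound
  have hpt : ∀ z ∈ O, Real.log (‖η - z‖ ^ 2) ≤
      Real.log 2 - (η * (starRingEnd ℂ) z).re - (1 / 2 + ((η * (starRingEnd ℂ) z) ^ 2).re / 2) / 4 := by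
    intro z hz
    obtain ⟨hz1, hz2⟩ := hO z hz
    have hsq := sq_eq η z hη hz1
    have hpos : 0 < ‖η - z‖ ^ 2 := by
      have : 0 < ‖η - z‖ := norm_pos_iff.mpr (sub_ne_zero.mpr (Ne.symm hz2))
      positivity
    have hle : |(η * (starRingEnd ℂ) z).re| ≤ 1 := by
      have := Complex.abs_re_le_norm (η * (starRingEnd ℂ) z)
      rw [hcn z hz] at this
      exact this
    have hle' := abs_le.mp hle
    have e : ‖η - z‖ ^ 2 = 2 * (1 + (-(η * (starRingEnd ℂ) z).re)) := by
      rw [hsq]; ring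
    rw [e] at hpos ⊢
    rw [Real.log_mul (by norm_num) (by intro h; rw [h] at hpos; simp at hpos)]
    have hy1 : -1 < -(η * (starRingEnd ℂ) z).re := by linarith
    have hy2 : -(η * (starRingEnd ℂ) z).re ≤ 1 := by linarith [hle'.1]
    have := log_le _ hy1 hy2
    rw [← re_sq _ (hcn z hz)]
    have e2 : (-(η * (starRingEnd ℂ) z).re) ^ 2 = (η * (starRingEnd ℂ) z).re ^ 2 := by ring
    rw [e2] at this
    linarith
  have hsum := Finset.sum_le_sum hpt
  have hR : 0 ≤ R := (norm_nonneg _).trans h1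
  -- evaluate the sum
  have hs1 : ∑ z ∈ O, (η * (starRingEnd ℂ) z).re = (η * (starRingEnd ℂ) (∑ z ∈ O, z)).re := by
    rw [map_sum, Finset.mul_sum, Complex.re_sum]
  have hs2 : ∑ z ∈ O, ((η * (starRingEnd ℂ) z) ^ 2).re = (η ^ 2 * (starRingEnd ℂ) (∑ z ∈ O, z ^ 2)).re := by
    rw [map_sum, Finset.mul_sum, Complex.re_sum]
    refine Finset.sum_congr rfl fun z _ => ?_
    rw [mul_pow, map_pow]
  have hb1 : -R ≤ ∑ z ∈ O, (η * (starRingEnd ℂ) z).re := by
    rw [hs1]
    have h3 := Complex.abs_re_le_norm (η * (starRingEnd ℂ) (∑ z ∈ O, z))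
    rw [norm_mul, hη, RCLike.norm_conj, one_mul] at h3
    have := (abs_le.mp (h3.trans h1)).1
    exact this
  have hb2 : -R ≤ ∑ z ∈ O, ((η * (starRingEnd ℂ) z) ^ 2).re := by
    rw [hs2]
    have h3 := Complex.abs_re_le_norm (η ^ 2 * (starRingEnd ℂ) (∑ z ∈ O, z ^ 2))
    rw [norm_mul, norm_pow, hη, RCLike.norm_conj, one_pow, one_mul] at h3
    have := (abs_le.mp (h3.trans h2)).1
    exact this
  have heq : ∑ z ∈ O, (Real.log 2 - (η * (starRingEnd ℂ) z).re -
      (1 / 2 + ((η * (starRingEnd ℂ) z) ^ 2).re / 2) / 4) =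
      (O.card : ℝ) * Real.log 2 - ∑ z ∈ O, (η * (starRingEnd ℂ) z).re -
      ((O.card : ℝ) / 2 + (∑ z ∈ O, ((η * (starRingEnd ℂ) z) ^ 2).re) / 2) / 4 := by
    rw [Finset.sum_sub_distrib, Finset.sum_sub_distrib, ← Finset.sum_div, Finset.sum_add_distrib,
      Finset.sum_div, Finset.sum_const, Finset.sum_const, nsmul_eq_mul, nsmul_eq_mul]
    ring
  rw [heq] at hsum
  nlinarith [hsum, hb1, hb2, hR]

end PkUB

end Pool.Agent.Helper59.LUC
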